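import Mathlib

set_option autoImplicit false
set_option linter.unusedSectionVars false

namespace Pool.Agent.H.MP_f836ec_co

open Finset

variable {V : Type} [Fintype V] [DecidableEq V] (G : SimpleGraph V) [DecidableRel G.Adj]

/-- outside `W` there is an injective choice of neighbours staying outside `W` -/
def Good (W : Finset V) : Prop :=
  ∃ ρ : V → V, (∀ t, t ∉ W → G.Adj t (ρ t) ∧ ρ t ∉ W) ∧
    ∀ s t, s ∉ W → t ∉ W → ρ s = ρ t → s = t

theorem good_pair (W : Finset V) (a b : V) (hab : G.Adj a b) (ha : a ∉ W) (hb : b ∉ W)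
    (h : Good G (insert a (insert b W))) : Good G W := by
  obtain ⟨ρ, h1, h2⟩ := h
  have hne : a ≠ b := hab.ne
  refine ⟨fun t => if t = a then b else if t = b then a else ρ t, ?_, ?_⟩
  · intro t ht
    by_cases hta : t = a
    · subst hta; simp [hab, hb]
    · by_cases htb : t = b
      · subst htb; simp [hta, hab.symm, ha]
      · have := h1 t (by simp [hta, htb, ht])
        simp only [hta, htb, if_false]
        exact ⟨this.1, fun hw => this.2 (by simp [hw])⟩
  · intro s t hs ht hst
    have key : ∀ u, u ∉ W → u ≠ a → u ≠ b → ρ u ≠ a ∧ ρ u ≠ b := by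
      intro u hu hua hub
      have := (h1 u (by simp [hua, hub, hu])).2
      constructor
      · intro e; exact this (by simp [e])
      · intro e; exact this (by simp [e])
    by_cases hsa : s = a
    · by_cases hta : t = a
      · rw [hsa, hta]
      · by_cases htb : t = b
        · simp [hsa, htb, hne.symm] at hst
        · simp only [hsa, hta, htb, if_true, if_false] at hst
          exact absurd hst.symm (key t ht hta htb).2
    · by_cases hsb : s = b
      · by_cases hta : t = a
        · simp [hsb, hta, hne.symm, hne] at hst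
        · by_cases htb : t = b
          · rw [hsb, htb]
          · simp only [hsb, hne.symm, hta, htb, if_true, if_false] at hst
            exact absurd hst.symm (key t ht hta htb).1
      · by_cases hta : t = a
        · simp only [hsa, hsb, hta, if_true, if_false] at hst
          exact absurd hst (key s hs hsa hsb).2
        · by_cases htb : t = b
          · simp only [hsa, hsb, htb, hne.symm, if_true, if_false] at hst
            exact absurd hst (key s hs hsa hsb).1
          · simp only [hsa, hsb, hta, htb, if_false] at hst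
            exact h2 s t (by simp [hsa, hsb, hs]) (by simp [hta, htb, ht]) hst

theorem count_adj (A B : Finset V) :
    ∑ a ∈ A, (B.filter (fun b => G.Adj a b)).card = ∑ b ∈ B, (A.filter (fun a => G.Adj b a)).card := by
  simp only [card_filter]
  rw [Finset.sum_comm]
  refine Finset.sum_congr rfl fun b _ => Finset.sum_congr rfl fun a _ => ?_
  simp [G.adj_comm]

theorem filt_le (hr : G.IsRegularOfDegree 3) (A : Finset V) (b : V) :
    (A.filter (fun a => G.Adj b a)).card ≤ 3 := by
  have h3 : (G.neighborFinset b).card = 3 := hr b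
  rw [← h3]
  apply card_le_card
  intro a ha
  simp only [mem_filter] at ha
  simpa using ha.2

theorem filt_eq (hr : G.IsRegularOfDegree 3) (A : Finset V) (b : V)
    (h : ∀ a, G.Adj b a → a ∈ A) : (A.filter (fun a => G.Adj b a)).card = 3 := by
  have h3 : (G.neighborFinset b).card = 3 := hr b
  rw [← h3]
  congr 1
  ext a
  simp only [mem_filter, SimpleGraph.mem_neighborFinset]
  exact ⟨fun h' => h'.2, fun h' => ⟨h a h', h'⟩⟩

theorem all_of_eq (hr : G.IsRegularOfDegree 3) (A : Finset V) (b : V)
    (h : (A.filter (fun a => G.Adj b a)).card = 3) : ∀ a, G.Adj b a → a ∈ A := by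
  have h3 : (G.neighborFinset b).card = 3 := hr b
  have hsub : A.filter (fun a => G.Adj b a) ⊆ G.neighborFinset b := by
    intro a ha
    simp only [mem_filter] at ha
    simpa using ha.2
  have heq := eq_of_subset_of_card_le hsub (by omega)
  intro a ha
  have : a ∈ A.filter (fun a => G.Adj b a) := by rw [heq]; simpa using ha
  exact (mem_filter.1 this).1

theorem closed (hr : G.IsRegularOfDegree 3) (T Q : Finset V)
    (hTQ : ∀ t ∈ T, ∀ a, G.Adj t a → a ∈ Q) (hc : Q.card ≤ T.card) :
    ∀ q ∈ Q, ∀ a, G.Adj q a → a ∈ T := by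
  have h1 : ∑ t ∈ T, (Q.filter (fun b => G.Adj t b)).card = 3 * T.card := by
    rw [Finset.sum_congr rfl (fun t ht => filt_eq G hr Q t (hTQ t ht))]
    simp [mul_comm]
  rw [count_adj] at h1
  intro q hq
  apply all_of_eq G hr
  by_contra hne
  have hlt : (T.filter (fun a => G.Adj q a)).card < 3 := lt_of_le_of_ne (filt_le G hr T q) hne
  have : ∑ b ∈ Q, (T.filter (fun a => G.Adj b a)).card < ∑ _b ∈ Q, 3 :=
    Finset.sum_lt_sum (fun b _ => filt_le G hr T b) ⟨q, hq, hlt⟩
  simp only [sum_const, smul_eq_mul] at this
  omega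

theorem spread (hc : G.Connected) (P : V → Prop) (hP : ∀ a b, P a → G.Adj a b → P b)
    (a b : V) (ha : P a) : P b := by
  obtain ⟨w⟩ := hc.preconnected a b
  induction w with
  | nil => exact ha
  | cons h _ ih => exact ih (hP _ _ ha h)

/-- greedy colouring outward from `W` -/
theorem colour (hc : G.Connected) (hr : G.IsRegularOfDegree 3) (W : Finset V) (hW : W.Nonempty)
    (hg : Good G W) (c0 : V → Bool) :
    ∃ c : V → Bool, (∀ w ∈ W, c w = c0 w) ∧
      ∀ t, t ∉ W → ∃ y z, G.Adj t y ∧ G.Adj t z ∧ c y ≠ c z := by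
  obtain ⟨ρ, h1, h2⟩ := hg
  have main : ∀ k : ℕ, ∀ R : Finset V, ∀ c : V → Bool, Rᶜ.card = k → W ⊆ R →
      (∀ w ∈ W, c w = c0 w) →
      (∀ t, t ∉ W → ρ t ∈ R → ∃ z ∈ R, G.Adj t z ∧ c (ρ t) ≠ c z) →
      ∃ c : V → Bool, (∀ w ∈ W, c w = c0 w) ∧
        ∀ t, t ∉ W → ∃ y z, G.Adj t y ∧ G.Adj t z ∧ c y ≠ c z := by
    intro k
    induction k with
    | zero =>
      intro R c hk _ hcW hinv
      refine ⟨c, hcW, fun t ht => ?_⟩
      have hR : ρ t ∈ R := by
        by_contra hn
        have : ρ t ∈ Rᶜ := mem_compl.2 hn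
        rw [card_eq_zero.1 hk] at this
        simp at this
      obtain ⟨z, _, hz, hne⟩ := hinv t ht hR
      exact ⟨ρ t, z, (h1 t ht).1, hz, hne⟩
    | succ k ih =>
      intro R c hk hWR hcW hinv
      have hex : ∃ t, t ∉ W ∧ ρ t ∉ R ∧ ∃ z ∈ R, G.Adj t z := by
        by_contra hno
        push Not at hno
        set T : Finset V := univ.filter (fun t => t ∉ W ∧ ρ t ∉ R) with hT
        have hTQ : ∀ t ∈ T, ∀ a, G.Adj t a → a ∈ Rᶜ := by
          intro t ht a ha
          simp only [hT, mem_filter, mem_univ, true_and] at ht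
          exact mem_compl.2 fun haR => hno t ht.1 ht.2 a haR ha
        have hsurj : ∀ q, q ∉ W → ∃ t, t ∉ W ∧ ρ t = q := by
          intro q hq
          have hs := Finset.surjOn_of_injOn_of_card_le (s := Wᶜ) (t := Wᶜ) ρ
            (fun t ht => by
              have ht' : t ∉ W := by simpa using ht
              simpa using (h1 t ht').2)
            (fun s hs t ht hst => h2 s t (by simpa using hs) (by simpa using ht) hst) le_rfl
          obtain ⟨t, ht, hq'⟩ := hs (by simpa using hq : q ∈ ((Wᶜ : Finset V) : Set V))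
          exact ⟨t, by simpa using ht, hq'⟩
        have hcard : Rᶜ.card ≤ T.card := by
          have : Rᶜ ⊆ T.image ρ := by
            intro q hq
            have hqR : q ∉ R := mem_compl.1 hq
            obtain ⟨t, ht, rfl⟩ := hsurj q (fun h => hqR (hWR h))
            exact mem_image.2 ⟨t, by simp [hT, ht, hqR], rfl⟩
          exact (card_le_card this).trans card_image_le
        have hQT := closed G hr T Rᶜ hTQ hcard
        obtain ⟨q, hq⟩ : Rᶜ.Nonempty := card_pos.1 (by omega)
        obtain ⟨w, hw⟩ := hW
        have := spread G hc (fun a => a ∈ Rᶜ ∨ a ∈ T)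
          (fun a b ha hab => by
            rcases ha with ha | ha
            · exact Or.inr (hQT a ha b hab)
            · exact Or.inl (hTQ a ha b hab)) q w (Or.inl hq)
        rcases this with h | h
        · exact mem_compl.1 h (hWR hw)
        · simp [hT, hw] at h
      obtain ⟨t, htW, htR, z, hzR, htz⟩ := hex
      have hzne : z ≠ ρ t := fun e => htR (e ▸ hzR)
      apply ih (insert (ρ t) R) (Function.update c (ρ t) (!c z))
      · have : (insert (ρ t) R)ᶜ = Rᶜ.erase (ρ t) := by
          ext a; simp
        rw [this, card_erase_of_mem (mem_compl.2 htR)]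
        omega
      · exact hWR.trans (subset_insert _ _)
      · intro w hw
        have hne : w ≠ ρ t := fun e => htR (e ▸ hWR hw)
        rw [Function.update_of_ne hne]
        exact hcW w hw
      · intro s hs hsR
        rcases mem_insert.1 hsR with e | hsR'
        · have := h2 s t hs htW e
          subst this
          refine ⟨z, mem_insert_of_mem hzR, htz, ?_⟩
          rw [Function.update_self, Function.update_of_ne hzne]
          cases c z <;> simp
        · obtain ⟨z', hz', hsz, hne⟩ := hinv s hs hsR'
          refine ⟨z', mem_insert_of_mem hz', hsz, ?_⟩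
          have n1 : ρ s ≠ ρ t := fun e => htR (e ▸ hsR')
          have n2 : z' ≠ ρ t := fun e => htR (e ▸ hz')
          rw [Function.update_of_ne n1, Function.update_of_ne n2]
          exact hne
  exact main _ W c0 rfl subset_rfl (fun _ _ => rfl)
    (fun t ht hR => absurd hR (h1 t ht).2)

theorem even_card (hr : G.IsRegularOfDegree 3) : Even (Fintype.card V) := by
  have h := G.sum_degrees_eq_twice_card_edges
  rw [Finset.sum_congr rfl (fun v _ => hr v)] at h
  simp only [sum_const, card_univ, smul_eq_mul] at h
  rcases Nat.even_or_odd (Fintype.card V) with he | ⟨k, hk⟩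
  · exact he
  · omega

/-- shrinking to a minimal total dominating set -/
theorem shrink (hr : G.IsRegularOfDegree 3) (U : Finset V) (hU : U.card ≤ 3) :
    ∀ k : ℕ, ∀ S : Finset V, S.card = k → (∀ v, ∃ u ∈ S, G.Adj v u) →
      (∀ v, v ∉ U → ∃ u, u ∉ S ∧ G.Adj v u) →
      ∃ S' ⊆ S, (∀ v, ∃ u ∈ S', G.Adj v u) ∧ 2 * S'.card ≤ Fintype.card V := by
  intro k
  induction k using Nat.strong_induction_on with
  | _ k ih =>
    intro S hk hS hD
    by_cases hex : ∃ x ∈ S, ∀ v, ∃ u ∈ S.erase x, G.Adj v u
    · obtain ⟨x, hx, hx'⟩ := hex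
      obtain ⟨S', h1, h2⟩ := ih (S.erase x).card
        (by rw [← hk]; exact card_erase_lt_of_mem hx) (S.erase x) rfl hx'
        (fun v hv => by
          obtain ⟨u, hu, hvu⟩ := hD v hv
          exact ⟨u, fun h => hu (mem_of_mem_erase h), hvu⟩)
      exact ⟨S', h1.trans (erase_subset _ _), h2⟩
    · push Not at hex
      refine ⟨S, subset_rfl, hS, ?_⟩
      choose! p hp using hex
      have hp1 : ∀ x ∈ S, S.filter (fun a => G.Adj (p x) a) = {x} := by
        intro x hx
        obtain ⟨u, hu, hadj⟩ := hS (p x)
        have hux : u = x := by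
          by_contra hne
          exact hp x hx u (mem_erase.2 ⟨hne, hu⟩) hadj
        ext a
        simp only [mem_filter, mem_singleton]
        constructor
        · rintro ⟨ha, haa⟩
          by_contra hne
          exact hp x hx a (mem_erase.2 ⟨hne, ha⟩) haa
        · rintro rfl
          exact ⟨hx, hux ▸ hadj⟩
      have hinj : Set.InjOn p S := by
        intro x hx y hy hxy
        have e1 := hp1 x hx
        rw [hxy, hp1 y hy] at e1
        exact (singleton_injective e1).symm
      set P := S.image p with hP
      have hPc : P.card = S.card := card_image_of_injOn hinj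
      have hsum : ∑ t ∈ (univ : Finset V), (S.filter (fun b => G.Adj t b)).card = 3 * S.card := by
        rw [count_adj, Finset.sum_congr rfl (fun b _ => filt_eq G hr univ b (fun a _ => mem_univ a))]
        simp [mul_comm]
      have hle : ∀ t ∈ (univ : Finset V), (S.filter (fun b => G.Adj t b)).card
          + (if t ∈ P then 1 else 0) ≤ 2 + (if t ∈ U then 1 else 0) := by
        intro t _
        by_cases htP : t ∈ P
        · obtain ⟨x, hx, rfl⟩ := mem_image.1 htP
          rw [hp1 x hx]
          simp [htP]
        · by_cases htU : t ∈ U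
          · have := filt_le G hr S t
            simp only [htP, htU, if_true, if_false]
            omega
          · obtain ⟨u, hu, htu⟩ := hD t htU
            have h3 := filt_le G hr S t
            have hne : (S.filter (fun b => G.Adj t b)).card ≠ 3 :=
              fun e => hu (all_of_eq G hr S t e u htu)
            simp only [htP, htU, if_false]
            omega
      have htot := Finset.sum_le_sum hle
      rw [sum_add_distrib, sum_add_distrib, hsum] at htot
      simp only [sum_ite_mem, univ_inter, sum_const, smul_eq_mul, mul_one, card_univ] at htot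
      obtain ⟨m, hm⟩ := even_card G hr
      omega

/-- the statement wanted -/
def Goal : Prop :=
  ∃ S : Finset V,
    (∀ v : V, ∃ u ∈ S, G.Adj v u) ∧
    2 * S.card ≤ Fintype.card V ∧
    ∃ D : Finset V, Disjoint D S ∧ ∀ v : V, v ∈ D ∨ ∃ u ∈ D, G.Adj v u

theorem goal_of_seed (hc : G.Connected) (hr : G.IsRegularOfDegree 3) (W A U : Finset V)
    (hW : W.Nonempty) (hg : Good G W) (hU : U.card ≤ 3) (hUA : ∀ u ∈ U, u ∈ W ∧ u ∉ A)
    (h1 : ∀ t ∈ W, ∃ s ∈ W, s ∈ A ∧ G.Adj t s)
    (h2 : ∀ t ∈ W, t ∉ U → ∃ s ∈ W, s ∉ A ∧ G.Adj t s) : Goal G := by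
  obtain ⟨c, hc1, hc2⟩ := colour G hc hr W hW hg (fun v => decide (v ∈ A))
  set S : Finset V := univ.filter (fun v => c v = true) with hS
  have hmem : ∀ v, v ∈ S ↔ c v = true := by intro v; simp [hS]
  have hA : ∀ v, ∃ u ∈ S, G.Adj v u := by
    intro v
    by_cases hv : v ∈ W
    · obtain ⟨s, hs, hsA, hadj⟩ := h1 v hv
      exact ⟨s, (hmem s).2 (by rw [hc1 s hs]; simpa using hsA), hadj⟩
    · obtain ⟨y, z, hy, hz, hne⟩ := hc2 v hv
      cases hcy : c y
      · refine ⟨z, (hmem z).2 ?_, hz⟩
        rw [hcy] at hne
        cases hcz : c z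
        · exact absurd hcz.symm hne
        · rfl
      · exact ⟨y, (hmem y).2 hcy, hy⟩
  have hB : ∀ v, v ∉ U → ∃ u, u ∉ S ∧ G.Adj v u := by
    intro v hvU
    by_cases hv : v ∈ W
    · obtain ⟨s, hs, hsA, hadj⟩ := h2 v hv hvU
      exact ⟨s, fun h => by
        have := (hmem s).1 h
        rw [hc1 s hs] at this
        exact hsA (by simpa using this), hadj⟩
    · obtain ⟨y, z, hy, hz, hne⟩ := hc2 v hv
      cases hcy : c y
      · exact ⟨y, fun h => by have := (hmem y).1 h; rw [hcy] at this; exact absurd this (by simp), hy⟩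
      · refine ⟨z, fun h => hne ?_, hz⟩
        rw [hcy, (hmem z).1 h]
  obtain ⟨S', hsub, hS', hcard⟩ := shrink G hr U hU _ S rfl hA hB
  refine ⟨S', hS', hcard, Sᶜ, ?_, ?_⟩
  · exact Finset.disjoint_left.2 fun a ha ha' => mem_compl.1 ha (hsub ha')
  · intro v
    by_cases hvU : v ∈ U
    · left
      refine mem_compl.2 fun h => ?_
      have := (hmem v).1 h
      rw [hc1 v (hUA v hvU).1] at this
      exact (hUA v hvU).2 (by simpa using this)
    · right
      obtain ⟨u, hu, hadj⟩ := hB v hvU
      exact ⟨u, mem_compl.2 hu, hadj⟩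

end Pool.Agent.H.MP_f836ec_co
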