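import Pool.Agent.H.MP_f836ec_co.Core

set_option autoImplicit false
set_option linter.unusedSectionVars false

namespace Pool.Agent.H.MP_f836ec_co

open Finset

variable {V : Type} [Fintype V] [DecidableEq V] (G : SimpleGraph V) [DecidableRel G.Adj]

theorem goal3 (hc : G.Connected) (hr : G.IsRegularOfDegree 3) (a b c : V)
    (hab : G.Adj a b) (hbc : G.Adj b c) (hca : G.Adj c a) (hg : Good G {a, b, c}) : Goal G := by
  have n1 := hab.ne
  have n2 := hbc.ne
  have n3 := hca.ne
  refine goal_of_seed G hc hr {a, b, c} {a, b} {c} ⟨a, by simp⟩ hg (by simp) ?_ ?_ ?_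
  · intro u hu
    rw [mem_singleton.1 hu]
    simp [n3, n2.symm]
  · intro t ht
    simp only [mem_insert, mem_singleton] at ht
    rcases ht with rfl | rfl | rfl
    · exact ⟨b, by simp, by simp, hab⟩
    · exact ⟨a, by simp, by simp, hab.symm⟩
    · exact ⟨a, by simp, by simp, hca⟩
  · intro t ht htU
    simp only [mem_insert, mem_singleton] at ht htU
    rcases ht with rfl | rfl | rfl
    · exact ⟨c, by simp, by simp [n3, n2.symm], hca.symm⟩
    · exact ⟨c, by simp, by simp [n3, n2.symm], hbc⟩
    · exact absurd rfl htU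

theorem goal4 (hc : G.Connected) (hr : G.IsRegularOfDegree 3) (a b c d : V)
    (hab : G.Adj a b) (hbc : G.Adj b c) (hcd : G.Adj c d) (hac : a ≠ c) (hbd : b ≠ d)
    (hg : Good G {a, b, c, d}) : Goal G := by
  have n1 := hab.ne
  have n2 := hcd.ne
  refine goal_of_seed G hc hr {a, b, c, d} {b, c} {a, d} ⟨a, by simp⟩ hg
    (card_le_two.trans (by norm_num)) ?_ ?_ ?_
  · intro u hu
    simp only [mem_insert, mem_singleton] at hu
    rcases hu with rfl | rfl
    · simp [n1, hac]
    · simp [n2.symm, hbd.symm]
  · intro t ht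
    simp only [mem_insert, mem_singleton] at ht
    rcases ht with rfl | rfl | rfl | rfl
    · exact ⟨b, by simp, by simp, hab⟩
    · exact ⟨c, by simp, by simp, hbc⟩
    · exact ⟨b, by simp, by simp, hbc.symm⟩
    · exact ⟨c, by simp, by simp, hcd.symm⟩
  · intro t ht htU
    simp only [mem_insert, mem_singleton, not_or] at ht htU
    rcases ht with rfl | rfl | rfl | rfl
    · exact absurd rfl htU.1
    · exact ⟨a, by simp, by simp [n1, hac], hab.symm⟩
    · exact ⟨d, by simp, by simp [n2.symm, hbd.symm], hcd⟩
    · exact absurd rfl htU.2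

theorem goal7 (hc : G.Connected) (hr : G.IsRegularOfDegree 3) (a b c d e f g : V)
    (hab : G.Adj a b) (hbc : G.Adj b c) (hcd : G.Adj c d) (hde : G.Adj d e) (hef : G.Adj e f)
    (hfg : G.Adj f g) (hac : a ≠ c) (hae : a ≠ e) (haf : a ≠ f) (hdb : d ≠ b) (hdf : d ≠ f)
    (hgb : g ≠ b) (hgc : g ≠ c) (hge : g ≠ e)
    (hg : Good G {a, b, c, d, e, f, g}) : Goal G := by
  have n1 := hab.ne
  have n2 := hcd.ne.symm
  have n3 := hde.ne
  have n4 := hfg.ne.symm
  have ma : a ∉ ({b, c, e, f} : Finset V) := by simp [n1, hac, hae, haf]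
  have md : d ∉ ({b, c, e, f} : Finset V) := by simp [n2, n3, hdb, hdf]
  have mg : g ∉ ({b, c, e, f} : Finset V) := by simp [n4, hgb, hgc, hge]
  refine goal_of_seed G hc hr {a, b, c, d, e, f, g} {b, c, e, f} {a, d, g} ⟨a, by simp⟩ hg
    card_le_three ?_ ?_ ?_
  · intro u hu
    simp only [mem_insert, mem_singleton] at hu
    rcases hu with rfl | rfl | rfl
    · exact ⟨by simp, ma⟩
    · exact ⟨by simp, md⟩
    · exact ⟨by simp, mg⟩
  · intro t ht
    simp only [mem_insert, mem_singleton] at ht
    rcases ht with rfl | rfl | rfl | rfl | rfl | rfl | rfl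
    · exact ⟨b, by simp, by simp, hab⟩
    · exact ⟨c, by simp, by simp, hbc⟩
    · exact ⟨b, by simp, by simp, hbc.symm⟩
    · exact ⟨c, by simp, by simp, hcd.symm⟩
    · exact ⟨f, by simp, by simp, hef⟩
    · exact ⟨e, by simp, by simp, hef.symm⟩
    · exact ⟨f, by simp, by simp, hfg.symm⟩
  · intro t ht htU
    have htU' := htU
    simp only [mem_insert, mem_singleton, not_or] at ht htU'
    rcases ht with rfl | rfl | rfl | rfl | rfl | rfl | rfl
    · exact absurd rfl htU'.1
    · exact ⟨a, by simp, ma, hab.symm⟩
    · exact ⟨d, by simp, md, hcd⟩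
    · exact absurd rfl htU'.2.1
    · exact ⟨d, by simp, md, hde.symm⟩
    · exact ⟨g, by simp, mg, hfg⟩
    · exact absurd rfl htU'.2.2

theorem goal_path (hc : G.Connected) (hr : G.IsRegularOfDegree 3) (p : ℕ → V) :
    ∀ L : ℕ, 4 ≤ L → L ≠ 5 → (∀ i j, i < L → j < L → p i = p j → i = j) →
      (∀ i, i + 1 < L → G.Adj (p i) (p (i + 1))) → Good G ((range L).image p) → Goal G := by
  intro L
  induction L using Nat.strong_induction_on with
  | _ L ih =>
    intro h4 h5 hinj hadj hg
    have ne : ∀ i j, i < L → j < L → i ≠ j → p i ≠ p j :=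
      fun i j hi hj hij e => hij (hinj i j hi hj e)
    by_cases e4 : L = 4
    · subst e4
      refine goal4 G hc hr (p 0) (p 1) (p 2) (p 3) (hadj 0 (by omega)) (hadj 1 (by omega))
        (hadj 2 (by omega)) (ne 0 2 (by omega) (by omega) (by omega))
        (ne 1 3 (by omega) (by omega) (by omega)) ?_
      convert hg using 1
      ext x
      rw [show range 4 = {0, 1, 2, 3} by decide]
      simp only [image_insert, mem_insert, mem_singleton, image_singleton]
    by_cases e7 : L = 7
    · subst e7
      refine goal7 G hc hr (p 0) (p 1) (p 2) (p 3) (p 4) (p 5) (p 6) (hadj 0 (by omega))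
        (hadj 1 (by omega)) (hadj 2 (by omega)) (hadj 3 (by omega)) (hadj 4 (by omega))
        (hadj 5 (by omega)) (ne 0 2 (by omega) (by omega) (by omega))
        (ne 0 4 (by omega) (by omega) (by omega)) (ne 0 5 (by omega) (by omega) (by omega))
        (ne 3 1 (by omega) (by omega) (by omega)) (ne 3 5 (by omega) (by omega) (by omega))
        (ne 6 1 (by omega) (by omega) (by omega)) (ne 6 2 (by omega) (by omega) (by omega))
        (ne 6 4 (by omega) (by omega) (by omega)) ?_
      convert hg using 1
      ext x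
      rw [show range 7 = {0, 1, 2, 3, 4, 5, 6} by decide]
      simp only [image_insert, mem_insert, mem_singleton, image_singleton]
    obtain ⟨K, rfl⟩ : ∃ K, L = K + 2 := ⟨L - 2, by omega⟩
    have nm : ∀ i, K ≤ i → i < K + 2 → p i ∉ (range K).image p := by
      intro i h1 h2 hm
      obtain ⟨j, hj, e⟩ := mem_image.1 hm
      have hj' := mem_range.1 hj
      exact ne j i (by omega) h2 (by omega) e
    refine ih K (by omega) (by omega) (by omega)
      (fun i j hi hj => hinj i j (by omega) (by omega)) (fun i hi => hadj i (by omega)) ?_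
    refine good_pair G _ (p (K + 1)) (p K) (hadj K (by omega)).symm
      (nm _ (by omega) (by omega)) (nm _ le_rfl (by omega)) ?_
    rw [range_add_one, range_add_one, image_insert, image_insert] at hg
    exact hg

theorem exists_perm (hr : G.IsRegularOfDegree 3) :
    ∃ σ : V → V, Function.Injective σ ∧ ∀ t, G.Adj t (σ t) := by
  have h := (Finset.all_card_le_biUnion_card_iff_exists_injective
    (fun t => G.neighborFinset t)).1 (by
      intro s
      have h1 : ∑ t ∈ s, ((s.biUnion fun t => G.neighborFinset t).filter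
          (fun b => G.Adj t b)).card = 3 * s.card := by
        rw [Finset.sum_congr rfl (fun t ht => filt_eq G hr _ t (fun a ha =>
          mem_biUnion.2 ⟨t, ht, by simpa using ha⟩))]
        simp [mul_comm]
      rw [count_adj] at h1
      have h2 := Finset.sum_le_sum (s := s.biUnion fun t => G.neighborFinset t)
        (fun b _ => filt_le G hr s b)
      simp only [sum_const, smul_eq_mul] at h2
      omega)
  obtain ⟨σ, h1, h2⟩ := h
  exact ⟨σ, h1, fun t => by simpa using h2 t⟩

section orbit

variable (σ : V → V)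

/-- the cycle of `σ` through `y` -/
noncomputable def orb (y : V) : Finset V :=
  (range (Function.minimalPeriod σ y)).image (fun i => σ^[i] y)

theorem per_pos (hσ : Function.Injective σ) (y : V) : 0 < Function.minimalPeriod σ y :=
  Function.minimalPeriod_pos_of_mem_periodicPts (hσ.mem_periodicPts y)

theorem mem_orb (hσ : Function.Injective σ) (y : V) (k : ℕ) : σ^[k] y ∈ orb σ y := by
  refine mem_image.2 ⟨k % Function.minimalPeriod σ y,
    mem_range.2 (Nat.mod_lt _ (per_pos σ hσ y)), ?_⟩
  exact Function.iterate_mod_minimalPeriod_eq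

theorem orb_back (hσ : Function.Injective σ) (y t : V) (h : σ t ∈ orb σ y) : t ∈ orb σ y := by
  obtain ⟨i, _, e⟩ := mem_image.1 h
  have hp := per_pos σ hσ y
  have e2 : σ^[i + Function.minimalPeriod σ y] y = σ t := by
    rw [Function.iterate_add_apply, Function.iterate_minimalPeriod]
    exact e
  obtain ⟨j, hj⟩ : ∃ j, i + Function.minimalPeriod σ y = j + 1 :=
    ⟨i + Function.minimalPeriod σ y - 1, by omega⟩
  rw [hj, Function.iterate_succ_apply'] at e2
  rw [← hσ e2]
  exact mem_orb σ hσ y j

theorem orb_back_iter (hσ : Function.Injective σ) (y t : V) (k : ℕ) (h : σ^[k] t ∈ orb σ y) :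
    t ∈ orb σ y := by
  induction k with
  | zero => exact h
  | succ k ih =>
    rw [Function.iterate_succ_apply'] at h
    exact ih (orb_back σ hσ y _ h)

theorem orb_inj (y : V) (i j : ℕ) (hi : i < Function.minimalPeriod σ y)
    (hj : j < Function.minimalPeriod σ y) (e : σ^[i] y = σ^[j] y) : i = j :=
  (Function.iterate_eq_iterate_iff_of_lt_minimalPeriod hi hj).1 e

theorem good_inv (hσ : Function.Injective σ) (ha : ∀ t, G.Adj t (σ t)) (W : Finset V)
    (h : ∀ t, σ t ∈ W → t ∈ W) : Good G W :=
  ⟨σ, fun t ht => ⟨ha t, fun hw => ht (h t hw)⟩, fun _ _ _ _ e => hσ e⟩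

theorem adj_iter (ha : ∀ t, G.Adj t (σ t)) (y : V) (i : ℕ) : G.Adj (σ^[i] y) (σ^[i + 1] y) := by
  rw [Function.iterate_succ_apply']
  exact ha _

theorem per_two (hσ : Function.Injective σ) (ha : ∀ t, G.Adj t (σ t)) (y : V) :
    2 ≤ Function.minimalPeriod σ y := by
  have hp := per_pos σ hσ y
  by_contra hlt
  have h1 : Function.minimalPeriod σ y = 1 := by omega
  have := Function.iterate_minimalPeriod (f := σ) (x := y)
  rw [h1] at this
  exact (ha y).ne this.symm

theorem card_orb (y : V) : (orb σ y).card = Function.minimalPeriod σ y := by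
  unfold orb
  rw [card_image_of_injOn, card_range]
  intro i hi j hj e
  exact orb_inj σ y i j (mem_range.1 hi) (mem_range.1 hj) e

end orbit

theorem main (hc : G.Connected) (hr : G.IsRegularOfDegree 3) : Goal G := by
  obtain ⟨σ, hσ, ha⟩ := exists_perm G hr
  by_cases h3 : ∃ y, Function.minimalPeriod σ y = 3
  · obtain ⟨y, hy⟩ := h3
    have hper := Function.iterate_minimalPeriod (f := σ) (x := y)
    rw [hy] at hper
    refine goal3 G hc hr y (σ y) (σ (σ y)) (ha _) (ha _) ?_ ?_
    · have := ha (σ (σ y))
      have e : σ (σ (σ y)) = y := hper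
      rwa [e] at this
    · have := good_inv G σ hσ ha (orb σ y) (orb_back σ hσ y)
      convert this using 1
      unfold orb
      rw [hy]
      ext x
      rw [show range 3 = {0, 1, 2} by decide]
      simp only [image_insert, mem_insert, mem_singleton, image_singleton]
      rfl
  by_cases h4 : ∃ y, 4 ≤ Function.minimalPeriod σ y ∧ Function.minimalPeriod σ y ≠ 5
  · obtain ⟨y, hy1, hy2⟩ := h4
    exact goal_path G hc hr (fun i => σ^[i] y) _ hy1 hy2 (orb_inj σ y)
      (fun i _ => adj_iter G σ ha y i) (good_inv G σ hσ ha (orb σ y) (orb_back σ hσ y))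
  have h25 : ∀ y, Function.minimalPeriod σ y = 2 ∨ Function.minimalPeriod σ y = 5 := by
    intro y
    have := per_two G σ hσ ha y
    push Not at h3 h4
    have := h3 y
    have := h4 y
    omega
  have hex : ∃ c z, G.Adj c z ∧ z ∉ orb σ c := by
    by_contra hno
    push Not at hno
    obtain ⟨y⟩ := hc.nonempty
    have hall : ∀ b, b ∈ orb σ y := by
      intro b
      refine spread G hc (fun a => a ∈ orb σ y) ?_ y b (mem_orb σ hσ y 0)
      intro a b' hao hab
      obtain ⟨i, _, rfl⟩ := mem_image.1 hao
      obtain ⟨j, _, rfl⟩ := mem_image.1 (hno _ _ hab)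
      rw [← Function.iterate_add_apply]
      exact mem_orb σ hσ y _
    have hcard : (orb σ y).card = Fintype.card V := by
      rw [eq_univ_of_forall hall, card_univ]
    rw [card_orb] at hcard
    have hlt := G.degree_lt_card_verts y
    rw [hr y] at hlt
    obtain ⟨m, hm⟩ := even_card G hr
    have := h25 y
    omega
  obtain ⟨c, z, hcz, hz⟩ := hex
  set Lc := Function.minimalPeriod σ c with hLc
  set Lz := Function.minimalPeriod σ z with hLz
  have hc25 := h25 c
  have hz25 := h25 z
  have hdis : ∀ i j, σ^[i] z ≠ σ^[j] c := by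
    intro i j e
    exact hz (orb_back_iter σ hσ c z i (e ▸ mem_orb σ hσ c j))
  refine goal_path G hc hr (fun i => if i < Lz then σ^[Lz - 1 - i] z else σ^[i - Lz] c) (Lz + Lc)
    (by omega) (by omega) ?_ ?_ ?_
  · intro i j hi hj e
    by_cases h1 : i < Lz <;> by_cases h2 : j < Lz
    · simp only [h1, h2, if_true] at e
      have := orb_inj σ z _ _ (by omega) (by omega) e
      omega
    · simp only [h1, h2, if_true, if_false] at e
      exact absurd e (hdis _ _)
    · simp only [h1, h2, if_true, if_false] at e
      exact absurd e.symm (hdis _ _)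
    · simp only [h1, h2, if_false] at e
      have := orb_inj σ c _ _ (by omega) (by omega) e
      omega
  · intro i hi
    by_cases h1 : i + 1 < Lz
    · have h2 : i < Lz := by omega
      simp only [h1, h2, if_true]
      have e : Lz - 1 - i = Lz - 1 - (i + 1) + 1 := by omega
      rw [e]
      exact (adj_iter G σ ha z _).symm
    · by_cases h2 : i < Lz
      · simp only [h1, h2, if_true, if_false]
        have e1 : Lz - 1 - i = 0 := by omega
        have e2 : i + 1 - Lz = 0 := by omega
        rw [e1, e2]
        exact hcz.symm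
      · simp only [h1, h2, if_false]
        have e : i + 1 - Lz = i - Lz + 1 := by omega
        rw [e]
        exact adj_iter G σ ha c _
  · have hg := good_inv G σ hσ ha (orb σ z ∪ orb σ c) (fun t ht => by
      rcases mem_union.1 ht with h | h
      · exact mem_union_left _ (orb_back σ hσ z t h)
      · exact mem_union_right _ (orb_back σ hσ c t h))
    convert hg using 1
    ext x
    simp only [mem_image, mem_range, mem_union, orb]
    constructor
    · rintro ⟨i, hi, rfl⟩
      by_cases h1 : i < Lz
      · left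
        exact ⟨Lz - 1 - i, by omega, by simp [h1]⟩
      · right
        exact ⟨i - Lz, by omega, by simp [h1]⟩
    · rintro (⟨i, hi, rfl⟩ | ⟨i, hi, rfl⟩)
      · refine ⟨Lz - 1 - i, by omega, ?_⟩
        have h1 : Lz - 1 - i < Lz := by omega
        have e : Lz - 1 - (Lz - 1 - i) = i := by omega
        simp only [h1, if_true, e]
      · refine ⟨Lz + i, by omega, ?_⟩
        have h1 : ¬ (Lz + i < Lz) := by omega
        have e : Lz + i - Lz = i := by omega
        simp only [h1, if_false, e]

end Pool.Agent.H.MP_f836ec_co
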